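import Mathlib
import Pool.Agent.V11242.RF.Defs

/-!
# Star-Rothberger Isbell–Mrówka spaces: definitions

The topological notions of the question, and the sentence of the forcing language which is forced.
-/

set_option autoImplicit false

namespace Pool.Agent.HM13.SR

open Cardinal Filter

/-! ### The notions of the question -/

/-- `𝒜` is an almost disjoint family of infinite subsets of `ℕ`. -/
def IsADFamily (𝒜 : Set (Set ℕ)) : Prop :=
  (∀ a ∈ 𝒜, a.Infinite) ∧ ∀ a ∈ 𝒜, ∀ b ∈ 𝒜, a ≠ b → (a ∩ b).Finite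

/-- The underlying set of the Isbell–Mrówka space of `𝒜`: the natural numbers together with the
members of `𝒜`. -/
inductive Psi (𝒜 : Set (Set ℕ)) : Type
  | nat (n : ℕ) : Psi 𝒜
  | pt (a : Set ℕ) (ha : a ∈ 𝒜) : Psi 𝒜

/-- The topology of the Isbell–Mrówka space: a set `U` is open iff for every `a ∈ 𝒜` which is a
point of `U`, all but finitely many elements of `a` belong to `U`. -/
instance (𝒜 : Set (Set ℕ)) : TopologicalSpace (Psi 𝒜) where
  IsOpen U := ∀ (a : Set ℕ) (ha : a ∈ 𝒜), Psi.pt a ha ∈ U → {n : ℕ | n ∈ a ∧ Psi.nat n ∉ U}.Finite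
  isOpen_univ := by
    intro a ha _
    simp
  isOpen_inter := by
    intro s t hs ht a ha h
    refine ((hs a ha h.1).union (ht a ha h.2)).subset ?_
    rintro n ⟨h1, h2⟩
    by_cases h : Psi.nat n ∈ s
    · right
      exact ⟨h1, fun h3 => h2 ⟨h, h3⟩⟩
    · left
      exact ⟨h1, h⟩
  isOpen_sUnion := by
    intro S hS a ha h
    obtain ⟨t, htS, hat⟩ := h
    refine (hS t htS a ha hat).subset ?_
    rintro n ⟨h1, h2⟩
    exact ⟨h1, fun h3 => h2 ⟨t, htS, h3⟩⟩

/-- A space `X` is star-Rothberger: for every sequence of open covers `𝒰 n` there are members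
`V n ∈ 𝒰 n` whose stars `st(V n, 𝒰 n)` cover `X`. -/
def StarRothberger (X : Type) [TopologicalSpace X] : Prop :=
  ∀ 𝒰 : ℕ → Set (Set X), (∀ n, (∀ u ∈ 𝒰 n, IsOpen u) ∧ ⋃₀ 𝒰 n = Set.univ) →
    ∃ V : ℕ → Set X, (∀ n, V n ∈ 𝒰 n) ∧
      ∀ x : X, ∃ n, ∃ u ∈ 𝒰 n, (u ∩ V n).Nonempty ∧ x ∈ u

/-- The number `cov(M)`, in the combinatorial form of the problem. -/
noncomputable def covM : Cardinal.{0} :=
  sInf {κ | ∃ F : Set (ℕ → ℕ), #F = κ ∧ ∀ g : ℕ → ℕ, ∃ f ∈ F, {n | f n = g n}.Finite}

/-- The number `cof([X]^ℵ₀)` of a set `X` (it depends on the cardinality of `X` only): the least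
size of a family of countable subsets of `X` such that every countable subset of `X` is contained
in some member. -/
noncomputable def cofCountable (X : Type) : Cardinal.{0} :=
  sInf {μ | ∃ C : Set (Set X), #C = μ ∧ (∀ c ∈ C, c.Countable) ∧
    ∀ s : Set X, s.Countable → ∃ c ∈ C, s ⊆ c}

/-- The statement whose consistency is asked for in Q1. -/
def Q1Holds : Prop :=
  ∃ (κ : Cardinal.{0}) (𝒜 : Set (Set ℕ)), IsADFamily 𝒜 ∧ #𝒜 = κ ∧ covM ≤ κ ∧
    cofCountable κ.out = κ ∧ StarRothberger (Psi 𝒜)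

/-! ### The sentence which is forced -/

/-- There is a family of functions from `ω` to `ω` indexed by `K` such that no function agrees
infinitely often with each of them, and no family of functions indexed by `K` is dominating. -/
def CoreFor (K : Type) : Prop :=
  (∃ r : K → ℕ → ℕ, ∀ g : ℕ → ℕ, ∃ k, ∃ N, ∀ n, N ≤ n → ∀ a, ¬ (g n = a ∧ r k n = a)) ∧
  ¬ ∃ D : K → ℕ → ℕ, ∀ f : ℕ → ℕ, ∃ k, ∃ N, ∀ n, N ≤ n → ∀ a b, b < a →
    ¬ (f n = a ∧ D k n = b)

section Forcing

open Pool.Agent.TH773.PSet Pool.Agent.V11242.RF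

universe u

variable {P : Type u} [Preorder P]

/-- For the functions `f` and `g` from `ω` to `ω`: `f n ≠ g n` for all but finitely many `n`. -/
def EvDiff (f g : ℕ → ℕ → Set P) : Set P :=
  fex fun N : ℕ => fall fun n => fall fun _ : N ≤ n => fall fun a =>
    fnot (fand (meets (f n a)) (meets (g n a)))

variable (P) in
/-- There is a family of functions from `ω` to `ω` indexed by `K` such that no function agrees
infinitely often with each of them. -/
def HasEvDiff (K : Type) : Set P :=
  fex fun r : K → ℕ → ℕ → Set P => fand (fall fun k => IsFun (r k))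
    (fall fun g : ℕ → ℕ → Set P => fimp (IsFun g) (fex fun k => EvDiff g (r k)))

variable (P) in
/-- The sentence `CoreFor K`, in the forcing language. -/
def CoreHolds (K : Type) : Set P := fand (HasEvDiff P K) (fnot (HasDominating P K))

end Forcing

end Pool.Agent.HM13.SR
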