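import Mathlib
import Pool.Agent.HM13.SR.Defs
import Pool.Agent.V11242.RF.Pol
import Pool.Agent.V11242.RN.Forced

/-!
# Uncountably many random reals code an eventually different family
-/

set_option autoImplicit false
set_option linter.unusedSectionVars false

namespace Pool.Agent.HM13.SR

open Pool.Agent.TH773.PSet Pool.Agent.V11242.RF Pool.Agent.V11242.RN
open MeasureTheory Set Filter Topology

universe u

variable {I : Type}

/-- the first `n` binary digits of `a` -/
def bits (n a : ℕ) : List Bool := (List.range n).map fun j => a.testBit j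

theorem length_bits (n a : ℕ) : (bits n a).length = n := by simp [bits]

theorem getD_bits {n a i : ℕ} (h : i < n) : (bits n a).getD i false = a.testBit i := by
  unfold bits
  rw [List.getD_eq_getElem _ _ (by simpa using h)]
  simp

/-- the number written in the first `n` bits of the random real `k` is `a` -/
def evt (k : I) (n a : ℕ) : Set (I × ℕ → Bool) := {x | a < 2 ^ n ∧ x ∈ ext (coord k) (bits n a)}

theorem evt_eq (k : I) (n a : ℕ) :
    evt k n a = if a < 2 ^ n then ext (coord k) (bits n a) else ∅ := by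
  split_ifs with h
  · ext x
    simp [evt, h]
  · ext x
    simp [evt, h]

theorem dep_evt (k : I) (n a : ℕ) : Dep {t : I × ℕ | t.1 = k} (evt k n a) := by
  rw [evt_eq]
  split_ifs
  · exact dep_ext _ _
  · exact dep_empty _

theorem measurable_evt (k : I) (n a : ℕ) : MeasurableSet (evt k n a) := (dep_evt k n a).meas

theorem measure_evt (k : I) (n a : ℕ) : coinProduct I (evt k n a) ≤ (2 : ENNReal)⁻¹ ^ n := by
  rw [evt_eq]
  split_ifs
  · rw [measure_ext, length_bits]
  · simp

theorem existsUnique_evt (x : I × ℕ → Bool) (k : I) (n : ℕ) : ∃! a, x ∈ evt k n a := by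
  refine ⟨Nat.ofBits fun j : Fin n => x (k, j), ⟨Nat.ofBits_lt_two_pow _, ?_⟩, ?_⟩
  · intro i hi
    rw [length_bits] at hi
    rw [getD_bits hi, Nat.testBit_ofBits_lt _ _ hi]
    rfl
  · rintro b ⟨hb, hb'⟩
    refine Nat.eq_of_testBit_eq fun i => ?_
    by_cases hi : i < n
    · have h1 := hb' i (by rwa [length_bits])
      rw [getD_bits hi] at h1
      rw [Nat.testBit_ofBits_lt _ _ hi]
      have h2 : x (k, i) = true ↔ b.testBit i = true := h1
      exact (Bool.eq_iff_iff.2 h2).symm
    · rw [Nat.testBit_ofBits_ge _ _ (not_lt.1 hi)]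
      exact Nat.testBit_eq_false_of_lt (hb.trans_le (Nat.pow_le_pow_right (by norm_num)
        (not_lt.1 hi)))

section Gen

variable {Ω : Type u} [MeasurableSpace Ω] {μ : Measure Ω} [IsFiniteMeasure μ]

theorem ae_imp_of_subset {A B : Set Ω} (hA : MeasurableSet A) (hB : MeasurableSet B)
    (h : AE μ A ⊆ AE μ B) : ∀ᵐ x ∂μ, x ∈ A → x ∈ B := by
  rw [ae_iff]
  by_contra hne
  have e : {x | ¬ (x ∈ A → x ∈ B)} = A \ B := by
    ext x
    simp
  rw [e] at hne
  have h1 : mk (μ := μ) (A \ B) (hA.diff hB) hne ∈ AE μ A := mk_AE _ hne fun x hx => hx.1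
  have h2 := mem_AE_iff.1 (h h1)
  refine hne (measure_eq_zero_iff_ae_notMem.2 (h2.mono fun x hx hx' => hx'.2 (hx hx')))

theorem rep_ae {F : Set Ω} (hF : MeasurableSet F) : ∀ᵐ x ∂μ, x ∈ rep (AE μ F) ↔ x ∈ F := by
  have h1 : AE μ (rep (AE μ F)) = AE μ F := by
    have h2 := meets_rep (μ := μ) (AE μ F)
    rw [← h2]
    have h3 := meets_hat (μ := μ) (X := fun _ => F) (fun _ => hF) 0
    exact h3
  filter_upwards [ae_imp_of_subset (measurable_rep _) hF h1.subset,
    ae_imp_of_subset hF (measurable_rep _) h1.symm.subset] with x h2 h3 using ⟨h2, h3⟩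

theorem mem_evDiff {f g : ℕ → ℕ → Set (Cond μ)} {p : Cond μ} :
    p ∈ EvDiff f g ↔ ∀ᵐ x ∂μ, x ∈ p.1 → ∃ N, ∀ n, N ≤ n → ∀ a, ¬ (x ∈ rep (f n a) ∧
      x ∈ rep (g n a)) := by
  unfold EvDiff
  have e : ∀ N : ℕ, (fall fun n : ℕ => fall fun _ : N ≤ n => fall fun a =>
      fnot (fand (meets (f n a)) (meets (g n a)))) =
      AE μ (⋂ n : ℕ, ⋂ (_ : N ≤ n), ⋂ a : ℕ, (rep (f n a) ∩ rep (g n a))ᶜ) := by
    intro N
    simp only [← fall_AE]
    refine congrArg fall (funext fun n => congrArg fall (funext fun _ => congrArg fall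
      (funext fun a => ?_)))
    rw [meets_rep, meets_rep, fand_AE, fnot_AE ((measurable_rep _).inter (measurable_rep _))]
  simp only [e]
  rw [fex_AE, mem_AE_iff]
  · refine eventually_congr (Eventually.of_forall fun x => ?_)
    refine imp_congr_right fun _ => ?_
    simp only [mem_iUnion, mem_iInter, mem_compl_iff, mem_inter_iff]
  · intro N
    exact MeasurableSet.iInter fun n => MeasurableSet.iInter fun _ => MeasurableSet.iInter fun a =>
      ((measurable_rep _).inter (measurable_rep _)).compl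

end Gen

/-- the name of the function coded by the random real with index `k` -/
def rfun (k : I) (n a : ℕ) : Set (Random I) := AE (coinProduct I) (evt k n a)

theorem rep_rfun (k : I) : ∀ᵐ x ∂(coinProduct I), ∀ n a, x ∈ rep (rfun k n a) ↔ x ∈ evt k n a := by
  rw [ae_all_iff]
  intro n
  rw [ae_all_iff]
  intro a
  exact rep_ae (measurable_evt k n a)

theorem isFun_rfun (k : I) (p : Random I) : p ∈ IsFun (rfun k) := by
  rw [mem_isFun]
  filter_upwards [rep_rfun k] with x hx _ n
  obtain ⟨a, ha, ha'⟩ := existsUnique_evt x k n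
  exact ⟨a, (hx n a).2 ha, fun b hb => ha' b ((hx n b).1 hb)⟩

/-- A function which does not depend on the random real `k` is eventually different from the
function which it codes. -/
theorem evDiff_rfun {g : ℕ → ℕ → Set (Random I)} {q : Random I} (hg : q ∈ IsFun g)
    {T : Set (I × ℕ)} (hq : Dep T q.1) (hT : ∀ n a, Dep T (rep (g n a))) (k : I)
    (hk : ∀ t ∈ T, t.1 ≠ k) : q ∈ EvDiff g (rfun k) := by
  have hdisj : Disjoint T {t : I × ℕ | t.1 = k} :=
    Set.disjoint_left.2 fun t h1 h2 => hk t h1 h2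
  have hg' := mem_isFun.1 hg
  -- the bad events
  let B : ℕ → Set (I × ℕ → Bool) := fun n => ⋃ a, (q.1 ∩ rep (g n a)) ∩ evt k n a
  have hB : ∀ n, coinProduct I (B n) ≤ (2 : ENNReal)⁻¹ ^ n := by
    intro n
    refine (measure_iUnion_le _).trans ?_
    have h1 : ∀ a, coinProduct I ((q.1 ∩ rep (g n a)) ∩ evt k n a) ≤
        coinProduct I (q.1 ∩ rep (g n a)) * (2 : ENNReal)⁻¹ ^ n := by
      intro a
      rw [dep_indep hdisj (hq.inter (hT n a)) (dep_evt k n a)]
      exact mul_le_mul_right (measure_evt k n a) _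
    refine (ENNReal.tsum_le_tsum h1).trans ?_
    rw [ENNReal.tsum_mul_right]
    have h2 : ∑' a, coinProduct I (q.1 ∩ rep (g n a)) ≤ 1 := by
      refine (tsum_meas_le_meas_iUnion_of_disjoint₀ _
        (fun a => (q.2.1.inter (measurable_rep _)).nullMeasurableSet) ?_).trans prob_le_one
      intro a b hab
      show coinProduct I ((q.1 ∩ rep (g n a)) ∩ (q.1 ∩ rep (g n b))) = 0
      rw [measure_eq_zero_iff_ae_notMem]
      filter_upwards [hg'] with x hx hx'
      exact hab ((hx hx'.1.1 n).unique hx'.1.2 hx'.2.2)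
    calc _ ≤ 1 * (2 : ENNReal)⁻¹ ^ n := mul_le_mul_left h2 _
      _ = _ := one_mul _
  have h1 : ∑' n, coinProduct I (B n) ≠ ⊤ :=
    ne_top_of_le_ne_top tsum_two (ENNReal.tsum_le_tsum hB)
  rw [mem_evDiff]
  filter_upwards [ae_eventually_notMem h1, rep_rfun k] with x hx hx' hxq
  obtain ⟨N, hN⟩ := eventually_atTop.1 hx
  refine ⟨N, fun n hn a ha => hN n hn ?_⟩
  exact mem_iUnion.2 ⟨a, ⟨hxq, ha.1⟩, (hx' n a).1 ha.2⟩

theorem reg_evDiff (f g : ℕ → ℕ → Set (Random I)) : Reg (EvDiff f g) := reg_fex _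

/-- Adding an uncountable family of random reals gives an eventually different family. -/
theorem hasEvDiff {K : Type} [Uncountable K] (p : Random K) : p ∈ HasEvDiff (Random K) K := by
  refine mem_fex_of (fun k => rfun k) fun q _ => ⟨fun k => isFun_rfun k q, fun g => ?_⟩
  refine mem_fimp.2 fun r _ hg => ⟨r, le_rfl, ?_⟩
  obtain ⟨T0, hT0, hT0'⟩ := exists_countable r.2.1
  choose T1 hT1 hT1' using fun (n : ℕ) (a : ℕ) => exists_countable (measurable_rep (g n a))
  let T : Set (K × ℕ) := T0 ∪ ⋃ n, ⋃ a, T1 n a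
  have hT : T.Countable := hT0.union (countable_iUnion fun n => countable_iUnion (hT1 n))
  obtain ⟨k, hk⟩ : ∃ k, k ∉ Prod.fst '' T := by
    by_contra hcon
    push Not at hcon
    have h1 : (univ : Set K).Countable := by
      rw [← eq_univ_of_forall hcon]
      exact hT.image _
    exact not_countable_univ h1
  have key : r ∈ EvDiff g (rfun k) := by
    refine evDiff_rfun hg (T := T) (hT0'.mono subset_union_left) (fun n a => ?_) k
      fun t ht h => hk ⟨t, ht, h⟩
    exact (hT1' n a).mono (subset_union_of_subset_right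
      (subset_iUnion_of_subset n (subset_iUnion_of_subset a le_rfl)) T0)
  exact mem_fex_of k fun s hs => (reg_evDiff _ _).1 _ key _ hs

end Pool.Agent.HM13.SR
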