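import Mathlib
import Pool.Agent.HM13.SR.Random
import Pool.Agent.V11242.SS.Forced
import Pool.Agent.W684.FM.Ambient
import Pool.Agent.Results.MP_a1c723_lc.LuzinStarRothberger

/-!
# Consistently, there is a star-Rothberger Isbell–Mrówka space of cardinality `cov(M)`
-/

set_option autoImplicit false

namespace Pool.Agent.HM13.SR

open Cardinal Filter Set
open Pool.Agent.W684.FM (Om1 OmegaOnePreserved MartinFor PCCC)

/-! ### The ground model -/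

theorem mk_om1 : #Om1 = ℵ₁ := Cardinal.mk_ord_toType _

instance : Uncountable Om1 := by
  rw [← Cardinal.aleph0_lt_mk_iff, mk_om1]
  exact aleph0_lt_aleph_one

/-- Martin's axiom implies `ℵ₁ < 𝔡`. -/
theorem no_dominating (h : MartinFor Om1) (D : Om1 → ℕ → ℕ) :
    ∃ g : ℕ → ℕ, ∀ l, ¬ ∃ N, ∀ n, N ≤ n → g n ≤ D l n := by
  obtain ⟨f, hf⟩ := Pool.Agent.V11242.SS.bounded_of_martin
    (Pool.Agent.W684.FM.martinFor_om1_iff.1 h) mk_om1.le D
  refine ⟨fun n => f n + 1, fun l ⟨N, hN⟩ => ?_⟩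
  obtain ⟨M, hM⟩ := hf l
  have h1 : f (max N M) + 1 ≤ D l (max N M) := hN (max N M) (le_max_left _ _)
  have h2 := hM (max N M) (le_max_right _ _)
  omega

open Pool.Agent.TH773.PSet Pool.Agent.V11242.RF in
theorem pccc_random (I : Type) : PCCC (Random I) := by
  intro A hA
  refine countable_of_incomp (μ := coinProduct I) (fun p : A => p.1) fun p q hpq => ?_
  exact hA p.1 p.2 q.1 q.2 fun h => hpq (Subtype.ext h)

open Pool.Agent.TH773.PSet Pool.Agent.V11242.RF in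
/-- Under Martin's axiom, adding `ℵ₁` random reals forces `CoreFor ω₁`. -/
theorem exists_forcing (h : MartinFor Om1) :
    ∃ (P : Type) (_ : Preorder P), Nonempty P ∧
      (∀ A : Set P, (∀ p ∈ A, ∀ q ∈ A, p ≠ q → ¬ ∃ r, r ≤ p ∧ r ≤ q) → A.Countable) ∧
      ∀ p : P, p ∈ OmegaOnePreserved P ∧ p ∈ CoreHolds P Om1 :=
  ⟨Random Om1, inferInstance, ⟨mk Set.univ MeasurableSet.univ (by simp)⟩, pccc_random Om1,
    fun p => ⟨(pccc_random Om1).omegaOnePreserved p, hasEvDiff p,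
      not_hasDominating (no_dominating h) p⟩⟩

/-! ### The extension -/

section Ext

open Pool.Agent.Results.MP_a1c723_lc

theorem covM_le {K : Type} (h : CoreFor K) : covM ≤ #K := by
  obtain ⟨⟨r, hr⟩, -⟩ := h
  have h1 : covM ≤ #(range r) := by
    refine csInf_le' ⟨_, rfl, fun g => ?_⟩
    obtain ⟨k, N, hN⟩ := hr g
    refine ⟨_, ⟨k, rfl⟩, (Set.finite_lt_nat N).subset fun n hn => ?_⟩
    by_contra hlt
    exact hN n (not_lt.1 hlt) (g n) ⟨rfl, hn⟩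
  exact h1.trans mk_range_le

theorem lt_dom {K : Type} [Nonempty K] (h : CoreFor K) :
    #K < LuzinStarRothberger.domNumber := by
  obtain ⟨-, h2⟩ := h
  by_contra hlt
  rw [not_lt] at hlt
  have hne : {κ : Cardinal.{0} | ∃ D : Set (ℕ → ℕ), #D = κ ∧
      ∀ f : ℕ → ℕ, ∃ g ∈ D, ∀ᶠ n in atTop, f n ≤ g n}.Nonempty :=
    ⟨_, Set.univ, rfl, fun f => ⟨f, mem_univ _, Eventually.of_forall fun _ => le_rfl⟩⟩
  obtain ⟨D, hD, hD'⟩ := csInf_mem hne
  have hDK : #D ≤ #K := by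
    rw [hD]
    exact hlt
  obtain ⟨e⟩ := hDK
  obtain ⟨g0, hg0, -⟩ := hD' 0
  classical
  let G : K → ℕ → ℕ := fun k => if hk : ∃ d : D, e d = k then hk.choose.1 else g0
  refine h2 ⟨G, fun f => ?_⟩
  obtain ⟨g, hg, hfg⟩ := hD' f
  obtain ⟨N, hN⟩ := eventually_atTop.1 hfg
  refine ⟨e ⟨g, hg⟩, N, fun n hn a b hab => ?_⟩
  rintro ⟨h3, h4⟩
  have hk : ∃ d : D, e d = e ⟨g, hg⟩ := ⟨_, rfl⟩
  have h5 : G (e ⟨g, hg⟩) = hk.choose.1 := dif_pos hk
  have h6 : hk.choose = ⟨g, hg⟩ := e.injective hk.choose_spec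
  rw [h5, h6] at h4
  have := hN n hn
  simp only at h4
  omega

/-- the identification of the two copies of the Isbell–Mrówka space -/
def toPsi {𝒜 : Set (Set ℕ)} : LuzinStarRothberger.Psi 𝒜 → Psi 𝒜
  | .nat n => .nat n
  | .pt a ha => .pt a ha

def ofPsi {𝒜 : Set (Set ℕ)} : Psi 𝒜 → LuzinStarRothberger.Psi 𝒜
  | .nat n => .nat n
  | .pt a ha => .pt a ha

theorem toPsi_ofPsi {𝒜 : Set (Set ℕ)} (x : Psi 𝒜) : toPsi (ofPsi x) = x := by
  cases x <;> rfl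

theorem ofPsi_toPsi {𝒜 : Set (Set ℕ)} (x : LuzinStarRothberger.Psi 𝒜) :
    ofPsi (toPsi x) = x := by
  cases x <;> rfl

theorem continuous_toPsi {𝒜 : Set (Set ℕ)} :
    Continuous (toPsi : LuzinStarRothberger.Psi 𝒜 → Psi 𝒜) := by
  refine ⟨fun U hU => ?_⟩
  intro a ha h
  exact hU a ha h

theorem starRothberger_of {𝒜 : Set (Set ℕ)}
    (h : LuzinStarRothberger.StarRothberger (LuzinStarRothberger.Psi 𝒜)) :
    StarRothberger (Psi 𝒜) := by
  intro 𝒰 h𝒰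
  obtain ⟨V, hV, hV'⟩ := h (fun n => (fun u => toPsi ⁻¹' u) '' 𝒰 n) fun n => ⟨by
    rintro _ ⟨u, hu, rfl⟩
    exact ((h𝒰 n).1 u hu).preimage continuous_toPsi, by
    refine eq_univ_of_forall fun x => ?_
    have hx : toPsi x ∈ ⋃₀ 𝒰 n := by
      rw [(h𝒰 n).2]
      exact mem_univ _
    obtain ⟨u, hu, hxu⟩ := hx
    exact ⟨_, ⟨u, hu, rfl⟩, hxu⟩⟩
  choose W hW hW' using hV
  refine ⟨W, hW, fun x => ?_⟩
  obtain ⟨n, u', ⟨u, hu, rfl⟩, ⟨y, hy1, hy2⟩, hx⟩ := hV' (ofPsi x)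
  refine ⟨n, u, hu, ⟨toPsi y, hy1, ?_⟩, ?_⟩
  · rw [← hW'] at hy2
    exact hy2
  · have : toPsi (ofPsi x) ∈ u := hx
    rwa [toPsi_ofPsi] at this

theorem cof_congr {X Y : Type} (e : X ≃ Y) : cofCountable X ≤ cofCountable Y := by
  have hne : {μ : Cardinal.{0} | ∃ C : Set (Set Y), #C = μ ∧ (∀ c ∈ C, c.Countable) ∧
      ∀ s : Set Y, s.Countable → ∃ c ∈ C, s ⊆ c}.Nonempty :=
    ⟨_, {c | c.Countable}, rfl, fun c hc => hc, fun s hs => ⟨s, hs, subset_rfl⟩⟩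
  obtain ⟨C, hC, hC1, hC2⟩ := csInf_mem hne
  have h1 : cofCountable X ≤ #((fun c => e ⁻¹' c) '' C) := by
    refine csInf_le' ⟨_, rfl, ?_, fun s hs => ?_⟩
    · rintro _ ⟨c, hc, rfl⟩
      exact (hC1 c hc).preimage e.injective
    · obtain ⟨c, hc, hc'⟩ := hC2 (e '' s) (hs.image _)
      exact ⟨_, ⟨c, hc, rfl⟩, image_subset_iff.1 hc'⟩
  refine h1.trans (mk_image_le.trans ?_)
  exact hC.le

theorem q1_of_core {K : Type} (hK : #K = ℵ₁) (h : CoreFor K) : Q1Holds := by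
  have : Nonempty K := by
    rw [← mk_ne_zero_iff, hK]
    exact (aleph_pos 1).ne'
  have h1 : covM ≤ ℵ₁ := hK ▸ covM_le h
  have h2 : ℵ₁ < LuzinStarRothberger.domNumber := hK ▸ lt_dom h
  obtain ⟨𝒜, h3, h4, h5, h6, h7⟩ := LuzinStarRothberger.result.2.2 ⟨h1, h2⟩
  refine ⟨#𝒜, 𝒜, h3, rfl, h5, ?_, starRothberger_of h7⟩
  have e : (#𝒜).out ≃ 𝒜 := Cardinal.outMkEquiv
  have h8 : cofCountable 𝒜 = #𝒜 := h6
  exact le_antisymm ((cof_congr e).trans h8.le) (h8.ge.trans (cof_congr e.symm))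

end Ext

end Pool.Agent.HM13.SR
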